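import Pool.Agent.Helper69.TPF.St2

/-!
# Project TPF, module LFI: the level quotients are finite
-/

set_option autoImplicit false

namespace Pool.Agent.Helper99.TPF

open Pool.Agent.Helper69.TPF

theorem cLFI : St_LFI := by
  intro G _ hFG n
  obtain ⟨S, hS, hfin⟩ := Group.fg_iff.mp hFG
  have hSf : Finite S := hfin.to_subtype
  have hF : Finite (G →* Equiv.Perm (Fin n)) := by
    refine Finite.of_injective (fun f : G →* Equiv.Perm (Fin n) => fun s : S => f s.1) ?_
    intro f g h
    exact MonoidHom.eq_of_eqOn_dense hS (fun x hx => congrFun h ⟨x, hx⟩)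
  let Φ : G →* ((G →* Equiv.Perm (Fin n)) → Equiv.Perm (Fin n)) :=
    { toFun := fun x f => f x
      map_one' := by funext f; exact map_one f
      map_mul' := fun x y => by funext f; exact map_mul f x y }
  have hle : Φ.ker ≤ lev G n := by
    intro x hx
    rw [mem_lev]
    intro N hN h0 hn
    have hfi : N.FiniteIndex := ⟨h0⟩
    have hQ : Finite (G ⧸ N) := Subgroup.finite_quotient_of_finiteIndex
    have hc : Nat.card (G ⧸ N) ≤ n := hn
    let ι : G ⧸ N ↪ Fin n :=
      (Finite.equivFin (G ⧸ N)).toEmbedding.trans (Fin.castLEEmb hc)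
    let f : G →* Equiv.Perm (Fin n) := (Equiv.Perm.viaEmbeddingHom ι).comp
      ((MulAction.toPermHom (G ⧸ N) (G ⧸ N)).comp (QuotientGroup.mk' N))
    have h1 : f x = 1 := congrFun (MonoidHom.mem_ker.mp hx) f
    have h2 : MulAction.toPermHom (G ⧸ N) (G ⧸ N) (QuotientGroup.mk' N x) = 1 :=
      Equiv.Perm.viaEmbeddingHom_injective ι (by rw [map_one]; exact h1)
    have h3 := DFunLike.congr_fun h2 (1 : G ⧸ N)
    have h4 : (QuotientGroup.mk' N x) * (1 : G ⧸ N) = 1 := h3
    rw [mul_one] at h4
    exact (QuotientGroup.eq_one_iff x).mp h4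
  have hk : Φ.ker.FiniteIndex := inferInstance
  have hl : (lev G n).FiniteIndex := Subgroup.finiteIndex_of_le hle
  exact Subgroup.finite_quotient_of_finiteIndex

end Pool.Agent.Helper99.TPF
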