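import Pool.Agent.Helper69.TPF.St3

/-!
# Project TPF, module TGH: one half of the generation
-/

set_option autoImplicit false

namespace Pool.Agent.Helper99.TPF

open Pool.Agent.Helper6.TS Pool.Agent.Helper69.TPF

private lemma norm_of {G : Type} [Group G] (M : Subgroup G) (x : G)
    (h : ∀ ν ∈ M, x * ν * x⁻¹ ∈ M ∧ x⁻¹ * ν * x ∈ M) : x ∈ Subgroup.normalizer (M : Set G) := by
  rw [Subgroup.mem_normalizer_iff]
  intro ν
  constructor
  · intro hν
    exact (h ν hν).1
  · intro hν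
    have := (h _ hν).2
    have e : x⁻¹ * (x * ν * x⁻¹) * x = ν := by group
    rwa [e] at this

theorem cTGH (ngn : St_NGN) : St_TGH := by
  intro g n t l a S _ f fo fz K u h1 h2 hu hgen h3 h4 k₀ hk1 hk2 hk3
  let M : Subgroup (FreeGroup (Fin g)) :=
    { carrier := {ν | a ν = 1 ∧ ∃ k ∈ K, f k = ν ∧ fo k = 1 ∧ fz k = 1}
      one_mem' := ⟨map_one a, 1, K.one_mem, map_one f, map_one fo, map_one fz⟩
      mul_mem' := by
        rintro x y ⟨ax, k, hk, e1, e2, e3⟩ ⟨ay, k', hk', e1', e2', e3'⟩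
        refine ⟨by rw [map_mul, ax, ay, one_mul], k * k', K.mul_mem hk hk', ?_, ?_, ?_⟩
        · rw [map_mul, e1, e1']
        · rw [map_mul, e2, e2', one_mul]
        · rw [map_mul, e3, e3', one_mul]
      inv_mem' := by
        rintro x ⟨ax, k, hk, e1, e2, e3⟩
        refine ⟨by rw [map_inv, ax, inv_one], k⁻¹, K.inv_mem hk, ?_, ?_, ?_⟩
        · rw [map_inv, e1]
        · rw [map_inv, e2, inv_one]
        · rw [map_inv, e3, inv_one] }
  have hM : ∀ ν, ν ∈ M ↔ a ν = 1 ∧ ∃ k ∈ K, f k = ν ∧ fo k = 1 ∧ fz k = 1 := fun ν => Iff.rfl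
  have hlev : ∀ ν, a ν = 1 → ν ∈ lev (FreeGroup (Fin g)) n → ν ∈ M := by
    intro ν aν hν
    obtain ⟨k, e1, e2, e3⟩ := h1 ν aν
    refine (hM ν).mpr ⟨aν, k, h2 k ?_ ?_ ?_, e1, e2, e3⟩
    · rw [e1]; exact hν
    · rw [e2]; exact Subgroup.one_mem _
    · rw [e3]; exact Subgroup.one_mem _
  have hus : ∀ s, t s ≠ l → u s ∈ M := by
    intro s hs
    obtain ⟨k, hk, e1, e2, e3⟩ := h3 s hs
    refine (hM _).mpr ⟨?_, k, hk, e1, e2, e3⟩
    rw [hu s]
    unfold tgt
    rw [dif_neg hs]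
  have hnorm : ∀ x, x ∈ Subgroup.normalizer (M : Set (FreeGroup (Fin g))) := by
    intro x
    refine hgen.le (fun s => ?_) (fun r hr => ?_) x
    · by_cases hs : t s = l
      · obtain ⟨ks, hks, e1, e2⟩ := h4 s hs
        refine norm_of M (u s) fun ν hν => ?_
        obtain ⟨aν, k, hk, d1, d2, d3⟩ := (hM ν).mp hν
        constructor
        · refine (hM _).mpr ⟨?_, ks * k * ks⁻¹, K.mul_mem (K.mul_mem hks hk) (K.inv_mem hks),
            ?_, ?_, ?_⟩
          · rw [map_mul, map_mul, aν, map_inv, mul_one, mul_inv_cancel]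
          · rw [map_mul, map_mul, map_inv, e1, d1]
          · rw [map_mul, map_mul, map_inv, e2, d2, one_mul, one_mul, inv_one]
          · rw [map_mul, map_mul, map_inv, d3, mul_one, mul_inv_cancel]
        · refine (hM _).mpr ⟨?_, ks⁻¹ * k * ks, K.mul_mem (K.mul_mem (K.inv_mem hks) hk) hks,
            ?_, ?_, ?_⟩
          · rw [map_mul, map_mul, aν, map_inv, mul_one, inv_mul_cancel]
          · rw [map_mul, map_mul, map_inv, e1, d1]
          · rw [map_mul, map_mul, map_inv, e2, d2, mul_one, mul_one, inv_one]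
          · rw [map_mul, map_mul, map_inv, d3, mul_one, inv_mul_cancel]
      · exact Subgroup.le_normalizer (hus s hs)
    · refine norm_of M r fun ν hν => ?_
      have aν : a ν = 1 := hν.1
      have key : ∀ r, r ∈ lev (FreeGroup (Fin g)) n → r * ν * r⁻¹ ∈ M := by
        intro r hr
        have hc : r * (ν * r⁻¹ * ν⁻¹) ∈ lev (FreeGroup (Fin g)) n :=
          Subgroup.mul_mem _ hr ((lev_normal _ n).conj_mem _ (Subgroup.inv_mem _ hr) ν)
        have ha : a (r * (ν * r⁻¹ * ν⁻¹)) = 1 := by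
          rw [map_mul, map_mul, map_mul, map_inv, map_inv, aν, inv_one, mul_one, one_mul,
            mul_inv_cancel]
        have := M.mul_mem (hlev _ ha hc) hν
        have e : r * (ν * r⁻¹ * ν⁻¹) * ν = r * ν * r⁻¹ := by group
        rwa [e] at this
      refine ⟨key r hr, ?_⟩
      have := key r⁻¹ (Subgroup.inv_mem _ hr)
      rwa [inv_inv] at this
  have hMn : M.Normal := Subgroup.normalizer_eq_top_iff.mp ((Subgroup.eq_top_iff' _).mpr hnorm)
  have hker : ∀ ν, a ν = 1 → ν ∈ M := by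
    intro ν aν
    have h5 := ngn g n t l a u hu hgen ν aν
    obtain ⟨w, hw, r, hr, e⟩ := Subgroup.mem_sup_of_normal_right.mp h5
    have hw' : w ∈ M := by
      refine (Subgroup.normalClosure_le_normal (N := M) ?_) hw
      rintro x ⟨s, hs, rfl⟩
      exact hus s hs
    have ar : a r = 1 := by
      have : a (w * r) = 1 := by rw [e]; exact aν
      rw [map_mul, hw'.1, one_mul] at this
      exact this
    rw [← e]
    exact M.mul_mem hw' (hlev r ar hr)
  obtain ⟨-, k', hk', e1, e2, e3⟩ := (hM _).mp (hker (f k₀) hk1)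
  have h6 : k'⁻¹ * k₀ ∈ K := by
    refine h2 _ ?_ ?_ ?_
    · rw [map_mul, map_inv, e1, inv_mul_cancel]; exact Subgroup.one_mem _
    · rw [map_mul, map_inv, e2, hk2, inv_one, one_mul]; exact Subgroup.one_mem _
    · rw [map_mul, map_inv, e3, hk3, inv_one, one_mul]; exact Subgroup.one_mem _
  have := K.mul_mem hk' h6
  rwa [mul_inv_cancel_left] at this

end Pool.Agent.Helper99.TPF
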